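import Pool.Agent.Lib.MP_c7af3c_ag.T2.Iface
import Pool.Agent.Lib.MP_c7af3c_ag.T2.H54.Basic
import Pool.Agent.Lib.MP_c7af3c_ag.SHARP.H26.Mu

/-!
# MP_c7af3c_ag, project T2, row REG: the regular case (helper12)
-/

set_option autoImplicit false

namespace Pool.Agent.T2.H12

open MvPolynomial Pool.Agent.Gen Pool.Agent.Sharp Pool.Agent.Edge

/-! ### linear algebra -/

/-- a family with a span which is big modulo `U` contains an independent subfamily modulo `U` -/
theorem exists_sub {K V : Type} [Field K] [AddCommGroup V] [Module K V] [Module.Finite K V]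
    {N r : ℕ} (U E : Submodule K V) (w : Fin N → V)
    (hE : E ≤ U ⊔ Submodule.span K (Set.range w))
    (hdim : Module.finrank K U + r ≤ Module.finrank K E) :
    ∃ i : Fin r → Fin N, LinearIndependent K (Submodule.Quotient.mk (p := U) ∘ (w ∘ i)) := by
  obtain ⟨κ, a, ha, hsp, hli⟩ :=
    exists_linearIndependent' K (Submodule.Quotient.mk (p := U) ∘ w)
  have hfin : Finite κ := Finite.of_injective a ha
  have hft : Fintype κ := Fintype.ofFinite κ
  have h1 : Submodule.map U.mkQ E ≤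
      Submodule.span K (Set.range (Submodule.Quotient.mk (p := U) ∘ w)) := by
    refine (Submodule.map_mono hE).trans ?_
    rw [Submodule.map_sup, Submodule.map_span, sup_le_iff]
    constructor
    · rintro _ ⟨u, hu, rfl⟩
      rw [Submodule.mkQ_apply, (Submodule.Quotient.mk_eq_zero U).2 hu]
      exact Submodule.zero_mem _
    · refine Submodule.span_mono ?_
      rintro _ ⟨_, ⟨i, rfl⟩, rfl⟩
      exact ⟨i, rfl⟩
  have h2 : r ≤ Module.finrank K (Submodule.map U.mkQ E) := by
    have h3 := LinearMap.finrank_range_add_finrank_ker (U.mkQ.domRestrict E)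
    have h4 : LinearMap.range (U.mkQ.domRestrict E) = Submodule.map U.mkQ E :=
      LinearMap.range_domRestrict _ _
    have h5 : Module.finrank K (LinearMap.ker (U.mkQ.domRestrict E)) ≤ Module.finrank K U := by
      let f : LinearMap.ker (U.mkQ.domRestrict E) →ₗ[K] U :=
        { toFun := fun z => ⟨z.1.1, by
            have := z.2
            rw [LinearMap.mem_ker, LinearMap.domRestrict_apply, Submodule.mkQ_apply,
              Submodule.Quotient.mk_eq_zero] at this
            exact this⟩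
          map_add' := fun a b => rfl
          map_smul' := fun c a => rfl }
      refine LinearMap.finrank_le_finrank_of_injective (f := f) ?_
      intro a b hab
      apply Subtype.ext
      apply Subtype.ext
      exact congrArg (fun z : U => (z : V)) hab
    rw [h4] at h3
    omega
  have h6 : r ≤ Fintype.card κ := by
    have h7 := Submodule.finrank_mono h1
    rw [← hsp, finrank_span_eq_card hli] at h7
    omega
  obtain ⟨g⟩ : Nonempty (Fin r ↪ κ) :=
    Function.Embedding.nonempty_of_card_le (by rw [Fintype.card_fin]; exact h6)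
  exact ⟨a ∘ g, hli.comp g g.injective⟩

/-! ### the determinant and independence -/

section

variable {Ω : Type} [Field Ω] (D : D6 Ω)
  (x : Fin (4 + 1) → Ω) (j0 : Fin (4 + 1)) {s r : ℕ}
  (ε : (Unit ⊕ (Fin s ⊕ Fin r)) ⊕ Fin 1 ≃ Fin (4 + 1)) (η : Fin s → Fin (4 + 1) → Ω)
  (w : Fin r → Fin (4 + 1) → Ω)

theorem dt_ne (hj0 : x j0 = 1) (h0 : ∀ m, eval x (D.F m) = 0)
    (hη : ∀ a, ∑ p, eval x (pderiv p (D.F 0)) * η a p = 0)
    (hw : ∀ b, ∑ p, eval x (pderiv p (D.F 0)) * w b p = 0)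
    (hli : LinearIndependent Ω (Sum.elim (fun _ : Unit => x) (Sum.elim η w))) :
    dt D x j0 ε η w ≠ 0 := by
  have hcard : Fintype.card (Unit ⊕ (Fin s ⊕ Fin r)) + 1 = 4 + 1 := by
    have := Fintype.card_congr ε
    simpa using this
  obtain ⟨μ, hμ, h⟩ := detU D x h0 (Sum.elim (fun _ : Unit => x) (Sum.elim η w)) hli (by
    rintro (a | a | a) m
    · exact grad_x D x h0 m
    · rw [Subsingleton.elim m 0]
      exact hη a
    · rw [Subsingleton.elim m 0]
      exact hw a) hcard hj0 ε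
  have h1 := h j0
  rw [hj0, one_pow, mul_one] at h1
  unfold dt
  rw [h1]
  exact hμ

theorem li_of_dt (hd : dt D x j0 ε η w ≠ 0) :
    LinearIndependent Ω (Sum.elim (fun _ : Unit => x) (Sum.elim η w)) := by
  classical
  unfold dt at hd
  rw [← Matrix.det_transpose] at hd
  have h1 := Matrix.linearIndependent_rows_of_det_ne_zero hd
  have h2 : LinearIndependent Ω
      (colU D x (Sum.elim (fun _ : Unit => x) (Sum.elim η w)) j0) := by
    have h3 : (fun k a => colU D x (Sum.elim (fun _ : Unit => x) (Sum.elim η w)) j0 k (ε a)) =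
        (LinearMap.funLeft Ω Ω ε) ∘
          (colU D x (Sum.elim (fun _ : Unit => x) (Sum.elim η w)) j0) := rfl
    refine LinearIndependent.of_comp (LinearMap.funLeft Ω Ω ε) ?_
    rw [← h3]
    exact h1
  exact h2.comp Sum.inl Sum.inl_injective

end

/-! ### the regular situation -/

theorem gr_V {Ω : Type} [Field Ω] (D : D6 Ω) (x : Fin (4 + 1) → Ω) (h0 : ∀ m, eval x (D.F m) = 0)
    {G : MvPolynomial (Fin (4 + 1)) Ω} (hG : G.IsHomogeneous 6) (hx : eval x G = 0) :
    ∑ p, eval x (pderiv p (D.F 0)) * D.V x 0 G p = 0 := by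
  have h := grad_VT D x h0 (fun _ => G) (fun _ => hG) 0
  rw [VT_apply, Fin.sum_univ_one, hx, neg_zero] at h
  exact h

section

variable {Ω : Type} [Field Ω] [CharZero Ω] {k : Subfield Ω}
  {Γ : Type} [LinearOrderedCommGroupWithZero Γ] {S : Sizes Ω k Γ} {D : D6 Ω}
  {x : Fin (4 + 1) → Ω} {j0 : Fin (4 + 1)}

omit [CharZero Ω] in
theorem bc_ker (hS : Sit S D x j0) {u : Fin (4 + 1) → Ω} (hu : Bc D x k u) :
    ∑ p, eval x (pderiv p (D.F 0)) * u p = 0 := by
  rcases hu with ⟨p, q, rfl⟩ | ⟨G, hG, hx, rfl⟩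
  · exact grad_WT D x hS.h0 p q 0
  · exact gr_V D x hS.h0 hG.1 hx

omit [CharZero Ω] in
theorem hs_eq {s : ℕ} (η : Fin s → Fin (4 + 1) → Ω) :
    Hs x η = Submodule.span Ω (Set.range (Sum.elim (fun _ : Unit => x) η)) := by
  unfold Hs
  rw [Set.Sum.elim_range, Set.range_const, Set.singleton_union]

/-- VANB, WORDB, ANNB give the regular situation. -/
theorem build (hLoc : LocStatement) (hTaub : TaubStatement) (hVanb : VanbStatement)
    (hWordb : WordbStatement) (hAnnb : AnnbStatement) (hS : Sit S D x j0)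
    {A1 : MvPolynomial (Fin (4 + 1)) Ω} (hA1 : Fk k 5 A1) (hdim : 4 ≤ Module.finrank Ω (EA D x j0 A1))
    {s r m : ℕ} (hsr : s + r = 3) (hr2 : 2 ≤ r) (η : Fin s → Fin (4 + 1) → Ω)
    (hη : ∀ a, Bc D x k (η a)) (hW : ∀ p q, WT D x p q ∈ Hs x η)
    (hli : LinearIndependent Ω (Sum.elim (fun _ : Unit => x) η))
    (t : Fin (m + 1) → Fin (4 + 1)) (P : Fin (m + 1) → Fin (4 + 1) → Ω)
    (hull : Hull k x j0 t P) :
    m ≤ r ∧ (m = r → ∃ (s r : ℕ) (η : Fin s → Fin (4 + 1) → Ω)
      (t : Fin (r + 1) → Fin (4 + 1)) (P : Fin (r + 1) → Fin (4 + 1) → Ω)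
      (A0 : MvPolynomial (Fin (4 + 1)) Ω), GeoA k D x j0 η t P A0) := by
  -- a nonzero determinant
  have hHs := hs_eq (x := x) η
  have hfH : Module.finrank Ω (Hs x η) = 1 + s := by
    rw [hHs, finrank_span_eq_card hli, Fintype.card_sum, Fintype.card_unit, Fintype.card_fin]
  obtain ⟨i1, hi1⟩ := exists_sub (r := r) (Hs x η) (EA D x j0 A1)
    (fun i => D.V x 0 (A1 * lf x j0 i)) (by
      unfold EA
      rw [Submodule.span_le]
      rintro u ((hu | ⟨p, q, rfl⟩) | ⟨i, rfl⟩)
      · rw [Set.mem_singleton_iff.1 hu]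
        exact Submodule.mem_sup_left (Submodule.subset_span (Set.mem_insert _ _))
      · exact Submodule.mem_sup_left (hW p q)
      · exact Submodule.mem_sup_right (Submodule.subset_span ⟨i, rfl⟩)) (by omega)
  have hli2 : LinearIndependent Ω (Sum.elim (fun _ : Unit => x)
      (Sum.elim η fun b => D.V x 0 (A1 * lf x j0 (i1 b)))) := by
    have hmem : ∀ a : Unit ⊕ Fin s, Sum.elim (fun _ : Unit => x) η a ∈ Hs x η := by
      intro a
      rw [hHs]
      exact Submodule.subset_span ⟨a, rfl⟩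
    have hf : LinearIndependent Ω
        (fun a : Unit ⊕ Fin s => (⟨Sum.elim (fun _ : Unit => x) η a, hmem a⟩ : Hs x η)) :=
      LinearIndependent.of_comp (Hs x η).subtype hli
    have h1 := LinearIndependent.sumElim_of_quotient hf _ hi1
    have h2 := h1.comp (Equiv.sumAssoc Unit (Fin s) (Fin r)).symm (Equiv.injective _)
    have key : (Sum.elim (fun _ : Unit => x)
        (Sum.elim η fun b => D.V x 0 (A1 * lf x j0 (i1 b)))) =
        (Sum.elim (fun a : Unit ⊕ Fin s => Sum.elim (fun _ : Unit => x) η a)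
          fun b => D.V x 0 (A1 * lf x j0 (i1 b))) ∘
          (Equiv.sumAssoc Unit (Fin s) (Fin r)).symm := by
      funext a
      rcases a with a | a | a <;> rfl
    rw [key]
    exact h2
  have hwker : ∀ i : Fin (4 + 1),
      ∑ p, eval x (pderiv p (D.F 0)) * D.V x 0 (A1 * lf x j0 i) p = 0 := fun i =>
    gr_V D x hS.h0 (hA1.1.mul (hom_lf x j0 i)) (by rw [map_mul, eval_lf x hS.hj0 i, mul_zero])
  obtain ⟨ε⟩ : Nonempty ((Unit ⊕ (Fin s ⊕ Fin r)) ⊕ Fin 1 ≃ Fin (4 + 1)) := by
    refine ⟨Fintype.equivOfCardEq ?_⟩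
    simp only [Fintype.card_sum, Fintype.card_unit, Fintype.card_fin]
    omega
  have hdt := dt_ne D x j0 ε η _ hS.hj0 hS.h0 (fun a => bc_ker hS (hη a))
    (fun b => hwker (i1 b)) hli2
  obtain ⟨hmr, hV⟩ := hVanb hLoc hTaub Ω k Γ S D x j0 hS s r ε η
    (by omega) hη A1 hA1 i1 hdt m t P hull
  refine ⟨hmr, ?_⟩
  rintro rfl
  obtain ⟨hvan, hdt2⟩ := hV rfl
  refine ⟨s, m, η, t, P, A1, ?_⟩
  have hbas : LinearIndependent Ω (Sum.elim (fun _ : Unit => x)
      (Sum.elim η fun b : Fin m => D.V x 0 (A1 * lf x j0 (t b.succ)))) :=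
    li_of_dt D x j0 ε η _ (hdt2 (fun b => t b.succ) fun b b' hb => by
      congr 1
      exact Fin.ext hb)
  exact
    { hj0 := hS.hj0
      h0 := hS.h0 0
      kF := fun I => hS.kF 0 I
      kalg := hS.kalg
      sr := hsr
      r2 := hr2
      hull := hull
      gη := fun i => bc_ker hS (hη i)
      w := hW
      van := hvan
      A0k := hA1
      bas := hbas
      word := hWordb hLoc hTaub Ω k Γ S D x j0 hS s m η hsr hη t P hull A1 hA1 hbas
      ann := hAnnb Ω k Γ S D x j0 hS s η (by omega) hη hli }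

/-! ### the forms `lam` -/

omit [CharZero Ω] in
theorem lam_hom {m : ℕ} (t : Fin m → Fin (4 + 1)) (P : Fin m → Fin (4 + 1) → Ω)
    (f : Fin (4 + 1)) : (lam t P f).IsHomogeneous 1 := by
  unfold lam
  refine (isHomogeneous_X Ω f).sub (IsHomogeneous.sum _ _ _ fun i _ => ?_)
  simpa using (isHomogeneous_C (Fin (4 + 1)) (P i f)).mul (isHomogeneous_X Ω (t i))

omit [CharZero Ω] in
theorem coeff_X_k (j : Fin (4 + 1)) (I : Fin (4 + 1) →₀ ℕ) :
    coeff I (X j : MvPolynomial (Fin (4 + 1)) Ω) ∈ k := by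
  rw [coeff_X]
  split_ifs
  · exact k.one_mem
  · exact k.zero_mem

omit [CharZero Ω] in
theorem lam_k {m : ℕ} (t : Fin m → Fin (4 + 1)) (P : Fin m → Fin (4 + 1) → Ω)
    (hP : ∀ i f, P i f ∈ k) (f : Fin (4 + 1)) (I : Fin (4 + 1) →₀ ℕ) :
    coeff I (lam t P f) ∈ k := by
  unfold lam
  rw [coeff_sub, coeff_sum]
  refine k.sub_mem (coeff_X_k f I) (k.sum_mem fun i _ => ?_)
  rw [coeff_C_mul]
  exact k.mul_mem (hP i f) (coeff_X_k (t i) I)

omit [CharZero Ω] in
theorem mul_k {A B : MvPolynomial (Fin (4 + 1)) Ω} (hA : ∀ I, coeff I A ∈ k)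
    (hB : ∀ I, coeff I B ∈ k) (I : Fin (4 + 1) →₀ ℕ) : coeff I (A * B) ∈ k := by
  classical
  rw [coeff_mul]
  exact k.sum_mem fun p _ => k.mul_mem (hA _) (hB _)

omit [CharZero Ω] in
theorem lf_lam {m : ℕ} {t : Fin (m + 1) → Fin (4 + 1)} {P : Fin (m + 1) → Fin (4 + 1) → Ω}
    (hc : Cht x j0 t P) (i : Fin (4 + 1)) :
    lf x j0 i = lam t P i + ∑ j, C (P j i) * lf x j0 (t j) := by
  unfold lam lf
  have h : (C (x i) : MvPolynomial (Fin (4 + 1)) Ω) = ∑ j, C (P j i) * C (x (t j)) := by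
    rw [hc.xP i, map_sum]
    exact Finset.sum_congr rfl fun j _ => map_mul _ _ _
  simp only [mul_sub, Finset.sum_sub_distrib, ← mul_assoc]
  rw [← Finset.sum_mul, ← h]
  ring

omit [CharZero Ω] in
theorem v_lf {m : ℕ} {t : Fin (m + 1) → Fin (4 + 1)} {P : Fin (m + 1) → Fin (4 + 1) → Ω}
    (hc : Cht x j0 t P) (A : MvPolynomial (Fin (4 + 1)) Ω) (i : Fin (4 + 1)) :
    D.V x 0 (A * lf x j0 i) = D.V x 0 (A * lam t P i) +
      ∑ j, P j i • D.V x 0 (A * lf x j0 (t j)) := by
  have h : A * lf x j0 i = A * lam t P i + ∑ j, P j i • (A * lf x j0 (t j)) := by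
    rw [lf_lam hc i, mul_add, Finset.mul_sum]
    congr 1
    refine Finset.sum_congr rfl fun j _ => ?_
    rw [smul_eq_C_mul]
    ring
  rw [h, map_add, map_sum]
  simp only [map_smul]

omit [CharZero Ω] in
theorem exists_eta (hS : Sit S D x j0) {A1 : MvPolynomial (Fin (4 + 1)) Ω}
    (hdim : 4 ≤ Module.finrank Ω (EA D x j0 A1))
    (hW : ∀ p q, WT D x p q ∈ Submodule.span Ω {x})
    {t : Fin (2 + 1) → Fin (4 + 1)} {P : Fin (2 + 1) → Fin (4 + 1) → Ω} (hc : Cht x j0 t P) :
    ∃ f, D.V x 0 (A1 * lam t P f) ∉ Submodule.span Ω {x} := by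
  by_contra hcon
  push Not at hcon
  have h0 : D.V x 0 (A1 * lf x j0 (t 0)) = 0 := by
    have : A1 * lf x j0 (t 0) = 0 := by
      unfold lf
      rw [hc.t0, hS.hj0, C_1, one_mul, sub_self, mul_zero]
    rw [this, map_zero]
  have hle : EA D x j0 A1 ≤ Submodule.span Ω (Set.range
      (![x, D.V x 0 (A1 * lf x j0 (t 1)), D.V x 0 (A1 * lf x j0 (t 2))] :
        Fin 3 → Fin (4 + 1) → Ω)) := by
    have hx : Submodule.span Ω {x} ≤ Submodule.span Ω (Set.range
        (![x, D.V x 0 (A1 * lf x j0 (t 1)), D.V x 0 (A1 * lf x j0 (t 2))] :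
          Fin 3 → Fin (4 + 1) → Ω)) := by
      rw [Submodule.span_le]
      intro u hu
      rw [Set.mem_singleton_iff.1 hu]
      exact Submodule.subset_span ⟨0, rfl⟩
    unfold EA
    rw [Submodule.span_le]
    rintro u ((hu | ⟨p, q, rfl⟩) | ⟨i, rfl⟩)
    · rw [Set.mem_singleton_iff.1 hu]
      exact Submodule.subset_span ⟨0, rfl⟩
    · exact hx (hW p q)
    · change D.V x 0 (A1 * lf x j0 i) ∈ _
      rw [v_lf hc A1 i]
      refine Submodule.add_mem _ (hx (hcon i)) (Submodule.sum_mem _ fun j _ =>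
        Submodule.smul_mem _ _ ?_)
      fin_cases j
      · change D.V x 0 (A1 * lf x j0 (t 0)) ∈ _
        rw [h0]
        exact Submodule.zero_mem _
      · exact Submodule.subset_span ⟨1, rfl⟩
      · exact Submodule.subset_span ⟨2, rfl⟩
  have h1 := Submodule.finrank_mono hle
  have h2 := finrank_range_le_card (R := Ω)
    (![x, D.V x 0 (A1 * lf x j0 (t 1)), D.V x 0 (A1 * lf x j0 (t 2))] :
        Fin 3 → Fin (4 + 1) → Ω)
  rw [Set.finrank, Fintype.card_fin] at h2
  omega

end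

theorem li_zero {Ω V : Type} [Field Ω] [AddCommGroup V] [Module Ω V] {x : V} (hx : x ≠ 0) :
    LinearIndependent Ω (Sum.elim (fun _ : Unit => x) (fun a : Fin 0 => (Fin.elim0 a : V))) := by
  rw [Fintype.linearIndependent_iff]
  intro g hg
  rw [Fintype.sum_sum_type] at hg
  simp only [Finset.univ_unique, Sum.elim_inl, Finset.sum_singleton, Finset.univ_eq_empty,
    Finset.sum_empty, add_zero, smul_eq_zero] at hg
  rintro (a | a)
  · exact hg.resolve_right hx
  · exact Fin.elim0 a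

theorem li_one {Ω V : Type} [Field Ω] [AddCommGroup V] [Module Ω V] {x v : V} (hx : x ≠ 0)
    (hv : v ∉ Submodule.span Ω {x}) :
    LinearIndependent Ω (Sum.elim (fun _ : Unit => x) (fun _ : Fin 1 => v)) := by
  rw [Fintype.linearIndependent_iff]
  intro g hg
  rw [Fintype.sum_sum_type] at hg
  simp only [Finset.univ_unique, Sum.elim_inl, Sum.elim_inr, Finset.sum_singleton] at hg
  have h1 : g (Sum.inr default) = 0 := by
    by_contra hne
    apply hv
    rw [Submodule.mem_span_singleton]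
    refine ⟨- ((g (Sum.inr default))⁻¹ * g (Sum.inl default)), ?_⟩
    have h2 : v = (g (Sum.inr default))⁻¹ • (g (Sum.inr default) • v) := by
      rw [smul_smul, inv_mul_cancel₀ hne, one_smul]
    rw [h2, eq_neg_of_add_eq_zero_right hg, smul_neg, smul_smul, neg_smul]
  rw [h1, zero_smul, add_zero] at hg
  rintro (a | a)
  · exact (smul_eq_zero.1 hg).resolve_right hx
  · rw [Subsingleton.elim a default]
    exact h1

/-- Row REG. -/
theorem reg : RegStatement := by
  intro hLoc hTaub hHull hW2 hVanb hWordb hAnnb Ω _ _ k Γ _ S D x j0 hS ⟨A1, hA1, hdim⟩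
  have hx0 : x ≠ 0 := by
    intro h
    have := hS.hj0
    rw [h] at this
    exact zero_ne_one this
  obtain ⟨m, t, P, hm2, hull⟩ := hHull Ω k Γ S D x j0 hS
  by_cases hW : ∀ p q, WT D x p q ∈ Submodule.span Ω {x}
  · -- all `W(p,q)` are multiples of `x`
    have hH0 : Hs x (fun a : Fin 0 => (Fin.elim0 a : Fin (4 + 1) → Ω)) = Submodule.span Ω {x} := by
      unfold Hs
      rw [Set.range_eq_empty, insert_empty_eq]
    obtain ⟨hm3, h3⟩ := build hLoc hTaub hVanb hWordb hAnnb hS hA1 hdim (s := 0) (r := 3) rfl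
      (by norm_num) (fun a => Fin.elim0 a) (fun a => Fin.elim0 a)
      (fun p q => by rw [hH0]; exact hW p q) (li_zero hx0) t P hull
    by_cases hm : m = 3
    · exact h3 hm
    · have hm' : m = 2 := by omega
      subst hm'
      obtain ⟨f, hf⟩ := exists_eta hS hdim hW hull.toCht
      refine (build hLoc hTaub hVanb hWordb hAnnb hS hA1 hdim (s := 1) (r := 2) rfl le_rfl
        (fun _ => D.V x 0 (A1 * lam t P f)) (fun _ => Or.inr ⟨_, ⟨?_, ?_⟩, ?_, rfl⟩)
        (fun p q => ?_) (li_one hx0 hf) t P hull).2 rfl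
      · exact hA1.1.mul (lam_hom t P f)
      · exact mul_k hA1.2 (lam_k t P hull.Pk f)
      · unfold lam
        rw [map_mul, map_sub, map_sum, eval_X, hull.xP f]
        simp
      · refine Submodule.span_mono ?_ (hW p q)
        intro u hu
        exact Set.mem_insert_iff.2 (Or.inl hu)
  · -- a vector `W(p,q)` which is not a multiple of `x`
    push Not at hW
    obtain ⟨p, q, hpq⟩ := hW
    have hli := li_one (Ω := Ω) hx0 hpq
    have hle : Hs x (fun _ : Fin 1 => WT D x p q) ≤ Wsp D x := by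
      unfold Hs Wsp
      refine Submodule.span_mono ?_
      rintro u (hu | ⟨_, rfl⟩)
      · exact Or.inl hu
      · exact Or.inr ⟨p, q, rfl⟩
    have hf : Module.finrank Ω (Hs x (fun _ : Fin 1 => WT D x p q)) = 2 := by
      rw [hs_eq, finrank_span_eq_card hli]
      rfl
    have heq : Hs x (fun _ : Fin 1 => WT D x p q) = Wsp D x := by
      refine Submodule.eq_of_le_of_finrank_le hle ?_
      rw [hf]
      exact hW2 hLoc hTaub hHull Ω k Γ S D x j0 hS
    obtain ⟨hm, h2⟩ := build hLoc hTaub hVanb hWordb hAnnb hS hA1 hdim (s := 1) (r := 2) rfl le_rfl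
        (fun _ => WT D x p q) (fun _ => Or.inl ⟨p, q, rfl⟩)
        (fun p' q' => by
          rw [heq]
          exact Submodule.subset_span (Or.inr ⟨p', q', rfl⟩)) hli t P hull
    exact h2 (by omega)

end Pool.Agent.T2.H12
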